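import Mathlib
import Pool.Agent.H42.Hnh2

open Pool.Agent.H42.HnhDefs

/-- A homogeneous non-Hausdorff 3-manifold in which every `NH z` is a single 2-torus. -/
theorem Pool.Agent.Results.MP_861644_gt.Torus.result :
    ∃ (M : Type) (_ : TopologicalSpace M), HNH 3 M ∧
      ∀ z : M, Nonempty (NH z ≃ₜ Circle × Circle) :=
  Pool.Agent.H42.Hnh2.torus
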